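import Mathlib

set_option autoImplicit false

namespace Pool.Agent.Results.MP_ad0b59_co.Dichotomy

/-- Points of the triangular lattice in barycentric coordinates `(i, j, k)`; within one array
`T N` the sum `i + j + k = N - 1` is constant. -/
abbrev Pt := ℤ × ℤ × ℤ

/-- `p` and `q` (with equal coordinate sums) are at distance one in the triangular lattice:
the squared distance is half of the sum of the squared coordinate differences. -/
def Adj (p q : Pt) : Prop :=
  (p.1 - q.1)^2 + (p.2.1 - q.2.1)^2 + (p.2.2 - q.2.2)^2 = 2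

instance (p q : Pt) : Decidable (Adj p q) := by unfold Adj; infer_instance

/-- The rotation by 120 degrees about the centre of `T N`. -/
def rot (p : Pt) : Pt := (p.2.1, p.2.2, p.1)

/-- The triangular array `T_N`: points with nonnegative coordinates with sum `N - 1`. -/
noncomputable def T (N : ℕ) : Finset Pt :=
  (Finset.Icc (0:ℤ) N ×ˢ Finset.Icc (0:ℤ) N ×ˢ Finset.Icc (0:ℤ) N).filter
    (fun p => p.1 + p.2.1 + p.2.2 = (N:ℤ) - 1)

/-- A tile: three mutually adjacent points. -/
def IsTile (t : Finset Pt) : Prop :=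
  t.card = 3 ∧ ∀ p ∈ t, ∀ q ∈ t, p ≠ q → Adj p q

/-- `P` is a partition of the set of points `A` into tiles. -/
def IsTiling (A : Finset Pt) (P : Finset (Finset Pt)) : Prop :=
  (∀ t ∈ P, IsTile t ∧ t ⊆ A) ∧ ∀ p ∈ A, ∃! t, t ∈ P ∧ p ∈ t

/-- The rotation maps every tile of `P` to a tile of `P`. -/
def RotSymm (P : Finset (Finset Pt)) : Prop := ∀ t ∈ P, t.image rot ∈ P

/-- The number of rotationally symmetric tilings of `T_N`. -/
noncomputable def S (N : ℕ) : ℕ := Set.ncard {P | IsTiling (T N) P ∧ RotSymm P}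

/-! ### basic facts -/

lemma Adj.symm {p q : Pt} (h : Adj p q) : Adj q p := by
  unfold Adj at *; nlinarith [h]

lemma mem_T {N : ℕ} {p : Pt} : p ∈ T N ↔ 0 ≤ p.1 ∧ 0 ≤ p.2.1 ∧ 0 ≤ p.2.2 ∧ p.1 + p.2.1 + p.2.2 = (N:ℤ) - 1 := by
  unfold T
  simp only [Finset.mem_filter, Finset.mem_product, Finset.mem_Icc]
  constructor
  · rintro ⟨⟨⟨a, b⟩, ⟨c, d⟩, e, f⟩, g⟩; exact ⟨a, c, e, g⟩
  · rintro ⟨a, b, c, d⟩; refine ⟨⟨⟨a, by omega⟩, ⟨b, by omega⟩, c, by omega⟩, d⟩

lemma rot_inj : Function.Injective rot := by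
  rintro ⟨a, b, c⟩ ⟨a', b', c'⟩ h
  simp only [rot, Prod.mk.injEq] at h ⊢
  tauto

lemma rot3 (p : Pt) : rot (rot (rot p)) = p := rfl

lemma rot_mem_T {N : ℕ} {p : Pt} : rot p ∈ T N ↔ p ∈ T N := by
  rw [mem_T, mem_T]; simp only [rot]
  constructor
  · rintro ⟨a, b, c, d⟩; exact ⟨c, a, b, by linarith⟩
  · rintro ⟨a, b, c, d⟩; exact ⟨b, c, a, by linarith⟩

lemma adj_rot {p q : Pt} : Adj (rot p) (rot q) ↔ Adj p q := by
  simp only [Adj, rot]; constructor <;> intro h <;> linarith

lemma card_T (N : ℕ) : 2 * (T N).card = N * (N + 1) := by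
  have h1 : T N = (Finset.range N).biUnion (fun i => (Finset.range (N - i)).image (fun j : ℕ => (((i:ℕ):ℤ), ((j:ℕ):ℤ), (N:ℤ) - 1 - i - j))) := by
    ext p
    rw [mem_T, Finset.mem_biUnion]
    constructor
    · rintro ⟨a, b, c, d⟩
      refine ⟨p.1.toNat, by rw [Finset.mem_range]; omega, ?_⟩
      rw [Finset.mem_image]
      refine ⟨p.2.1.toNat, by rw [Finset.mem_range]; omega, ?_⟩
      obtain ⟨x, y, z⟩ := p
      simp only at a b c d ⊢
      rw [Int.toNat_of_nonneg a, Int.toNat_of_nonneg b]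
      simp only [Prod.mk.injEq, true_and]; omega
    · rintro ⟨i, hi, h⟩
      rw [Finset.mem_image] at h
      obtain ⟨j, hj, rfl⟩ := h
      rw [Finset.mem_range] at hi hj
      simp only
      refine ⟨by omega, by omega, by omega, by omega⟩
  rw [h1, Finset.card_biUnion]
  · have : ∀ i ∈ Finset.range N, ((Finset.range (N - i)).image (fun j : ℕ => (((i:ℕ):ℤ), ((j:ℕ):ℤ), (N:ℤ) - 1 - i - j))).card = N - i := by
      intro i _
      rw [Finset.card_image_of_injective, Finset.card_range]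
      intro a b h
      simp only [Prod.mk.injEq] at h
      omega
    rw [Finset.sum_congr rfl this]
    have h2 : ∀ n : ℕ, 2 * ∑ i ∈ Finset.range n, (n - i) = n * (n+1) := by
      intro n
      induction n with
      | zero => simp
      | succ n ih =>
        rw [Finset.sum_range_succ', mul_add]
        have : ∀ i ∈ Finset.range n, (n + 1 - (i+1)) = n - i := by intro i _; omega
        rw [Finset.sum_congr rfl this, ih]
        simp only [Nat.sub_zero]; ring
    exact h2 N
  · intro i _ j _ hij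
    rw [Function.onFun, Finset.disjoint_left]
    intro p hp hp'
    rw [Finset.mem_image] at hp hp'
    obtain ⟨a, _, rfl⟩ := hp
    obtain ⟨b, _, h⟩ := hp'
    simp only [Prod.mk.injEq] at h
    omega

lemma IsTiling.inter_eq {A : Finset Pt} {P : Finset (Finset Pt)} (h : IsTiling A P) {t s : Finset Pt}
    (ht : t ∈ P) (hs : s ∈ P) {p : Pt} (hp : p ∈ t) (hp' : p ∈ s) : t = s := by
  obtain ⟨u, _, hu⟩ := h.2 p ((h.1 t ht).2 hp)
  rw [hu t ⟨ht, hp⟩, hu s ⟨hs, hp'⟩]

lemma IsTiling.card {A : Finset Pt} {P : Finset (Finset Pt)} (h : IsTiling A P) : 3 * P.card = A.card := by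
  have hA : A = P.biUnion id := by
    ext p
    rw [Finset.mem_biUnion]
    constructor
    · intro hp
      obtain ⟨t, ⟨ht, hpt⟩, _⟩ := h.2 p hp
      exact ⟨t, ht, hpt⟩
    · rintro ⟨t, ht, hpt⟩
      exact (h.1 t ht).2 hpt
  rw [hA, Finset.card_biUnion]
  · rw [Finset.sum_congr rfl (g := fun _ => 3) (fun t ht => by exact (h.1 t ht).1.1)]
    simp [mul_comm]
  · intro t ht s hs hts
    rw [Function.onFun, id, id, Finset.disjoint_left]
    intro p hp hp'
    exact hts (h.inter_eq ht hs hp hp')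

/-- The distinguished point contained in every rotation invariant tile. -/
lemma fixed_tile {N : ℕ} {P : Finset (Finset Pt)} (h : IsTiling (T N) P) {t : Finset Pt} (ht : t ∈ P)
    (hfix : t.image rot = t) : 
    ((((N:ℤ) + 1) / 3, ((N:ℤ) - 1) / 3, ((N:ℤ) - 1) / 3) : Pt) ∈ t ∧ (N:ℤ) % 3 = 2 ∨ 
    ((((N:ℤ) - 3) / 3, (N:ℤ) / 3, (N:ℤ) / 3) : Pt) ∈ t ∧ (N:ℤ) % 3 = 0 := by
  have hrot : ∀ p ∈ t, rot p ∈ t := by
    intro p hp
    rw [← hfix]; exact Finset.mem_image_of_mem _ hp
  obtain ⟨htile, hsub⟩ := h.1 t ht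
  -- there is a point not fixed
  have hne : ∃ p ∈ t, rot p ≠ p := by
    by_contra hcon
    push Not at hcon
    have h1 : t.card ≤ 1 := by
      rw [Finset.card_le_one]
      intro a ha b hb
      have ea := hcon a ha
      have eb := hcon b hb
      have ta := mem_T.1 (hsub ha)
      have tb := mem_T.1 (hsub hb)
      obtain ⟨a1, a2, a3⟩ := a
      obtain ⟨b1, b2, b3⟩ := b
      simp only [rot, Prod.mk.injEq] at ea eb ta tb ⊢
      omega
    rw [htile.1] at h1
    omega
  obtain ⟨p, hp, hpne⟩ := hne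
  have hadj : Adj p (rot p) := htile.2 p hp _ (hrot p hp) (Ne.symm hpne)
  have tp := mem_T.1 (hsub hp)
  have hp1 := hrot p hp
  have hp2 := hrot _ hp1
  obtain ⟨a, b, c⟩ := p
  simp only [rot, Adj] at hadj tp hp1 hp2
  have h1 : -1 ≤ a - b ∧ a - b ≤ 1 := by constructor <;> nlinarith [sq_nonneg (b - c), sq_nonneg (c-a)]
  have h2 : -1 ≤ b - c ∧ b - c ≤ 1 := by constructor <;> nlinarith [sq_nonneg (a - b), sq_nonneg (c-a)]
  obtain ⟨h1a, h1b⟩ := h1
  obtain ⟨h2a, h2b⟩ := h2
  have hb : a = b - 1 ∨ a = b ∨ a = b + 1 := by omega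
  have hc : c = b - 1 ∨ c = b ∨ c = b + 1 := by omega
  rcases hb with hb | hb | hb <;> rcases hc with hc | hc | hc
  · left
    refine ⟨?_, by omega⟩
    have e : ((((N:ℤ) + 1) / 3, ((N:ℤ) - 1) / 3, ((N:ℤ) - 1) / 3) : Pt) = (b, c, a) := by
      rw [Prod.mk.injEq, Prod.mk.injEq]; omega
    rw [e]; exact hp1
  · right
    refine ⟨?_, by omega⟩
    have e : ((((N:ℤ) - 3) / 3, (N:ℤ) / 3, (N:ℤ) / 3) : Pt) = (a, b, c) := by
      rw [Prod.mk.injEq, Prod.mk.injEq]; omega
    rw [e]; exact hp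
  · exfalso; subst hb; subst hc; nlinarith
  · right
    refine ⟨?_, by omega⟩
    have e : ((((N:ℤ) - 3) / 3, (N:ℤ) / 3, (N:ℤ) / 3) : Pt) = (c, a, b) := by
      rw [Prod.mk.injEq, Prod.mk.injEq]; omega
    rw [e]; exact hp2
  · exfalso; subst hb; subst hc; nlinarith
  · left
    refine ⟨?_, by omega⟩
    have e : ((((N:ℤ) + 1) / 3, ((N:ℤ) - 1) / 3, ((N:ℤ) - 1) / 3) : Pt) = (c, a, b) := by
      rw [Prod.mk.injEq, Prod.mk.injEq]; omega
    rw [e]; exact hp2
  · exfalso; subst hb; subst hc; nlinarith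
  · left
    refine ⟨?_, by omega⟩
    have e : ((((N:ℤ) + 1) / 3, ((N:ℤ) - 1) / 3, ((N:ℤ) - 1) / 3) : Pt) = (a, b, c) := by
      rw [Prod.mk.injEq, Prod.mk.injEq]; omega
    rw [e]; exact hp
  · right
    refine ⟨?_, by omega⟩
    have e : ((((N:ℤ) - 3) / 3, (N:ℤ) / 3, (N:ℤ) / 3) : Pt) = (b, c, a) := by
      rw [Prod.mk.injEq, Prod.mk.injEq]; omega
    rw [e]; exact hp1

lemma card_mod {N : ℕ} {P : Finset (Finset Pt)} (h : IsTiling (T N) P) (hs : RotSymm P) : P.card % 3 ≤ 1 := by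
  classical
  let f : Function.End P := fun t => ⟨t.1.image rot, hs t.1 t.2⟩
  have hf : f ^ 3 ^ 1 = 1 := by
    funext t
    have : (f ^ 3 ^ 1) t = f (f (f t)) := rfl
    rw [this]
    apply Subtype.ext
    simp only [f, Finset.image_image]
    have : (rot ∘ rot ∘ rot) = id := by funext p; rfl
    show Finset.image (rot ∘ rot ∘ rot) t.1 = t.1
    rw [this, Finset.image_id]
  have : Fact (Nat.Prime 3) := ⟨by norm_num⟩
  have hmod := Equiv.Perm.card_fixedPoints_modEq (p := 3) (n := 1) hf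
  rw [Fintype.card_coe] at hmod
  have hle : Fintype.card (Function.fixedPoints f) ≤ 1 := by
    rw [Fintype.card_le_one_iff]
    rintro ⟨⟨t, ht⟩, hft⟩ ⟨⟨s, hs'⟩, hfs⟩
    apply Subtype.ext; apply Subtype.ext
    have e1 : t.image rot = t := congrArg Subtype.val hft
    have e2 : s.image rot = s := congrArg Subtype.val hfs
    rcases fixed_tile h ht e1 with ⟨a, a'⟩ | ⟨a, a'⟩ <;> rcases fixed_tile h hs' e2 with ⟨b, b'⟩ | ⟨b, b'⟩
    · exact h.inter_eq ht hs' a b
    · omega
    · omega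
    · exact h.inter_eq ht hs' a b
  have : P.card % 3 = Fintype.card (Function.fixedPoints f) % 3 := hmod
  omega

lemma S_eq_zero (q r : ℕ) (hr : r = 12 ∨ r = 14 ∨ r = 21 ∨ r = 23) : S (36 * q + r) = 0 := by
  unfold S
  suffices hE : {P | IsTiling (T (36 * q + r)) P ∧ RotSymm P} = ∅ by rw [hE, Set.ncard_empty]
  rw [Set.eq_empty_iff_forall_notMem]
  rintro P ⟨h, hs⟩
  have h1 := card_mod h hs
  have h2 := h.card
  have h3 := card_T (36 * q + r)
  rcases hr with rfl | rfl | rfl | rfl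
  · have : 6 * P.card = 6 * (216 * q^2 + 150 * q + 26) := by nlinarith
    omega
  · have : 6 * P.card = 6 * (216 * q^2 + 174 * q + 35) := by nlinarith
    omega
  · have : 6 * P.card = 6 * (216 * q^2 + 258 * q + 77) := by nlinarith
    omega
  · have : 6 * P.card = 6 * (216 * q^2 + 282 * q + 92) := by nlinarith
    omega


/-! ### general lemmas on tilings -/

lemma IsTiling.union {A B : Finset Pt} {P Q : Finset (Finset Pt)} (hd : Disjoint A B)
    (hA : IsTiling A P) (hB : IsTiling B Q) : IsTiling (A ∪ B) (P ∪ Q) := by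
  refine ⟨?_, ?_⟩
  · intro t ht
    rw [Finset.mem_union] at ht
    rcases ht with ht | ht
    · exact ⟨(hA.1 t ht).1, (hA.1 t ht).2.trans Finset.subset_union_left⟩
    · exact ⟨(hB.1 t ht).1, (hB.1 t ht).2.trans Finset.subset_union_right⟩
  · intro p hp
    rw [Finset.mem_union] at hp
    rcases hp with hp | hp
    · obtain ⟨t, ⟨ht, hpt⟩, hu⟩ := hA.2 p hp
      refine ⟨t, ⟨Finset.mem_union_left _ ht, hpt⟩, ?_⟩
      rintro s ⟨hs, hps⟩
      rw [Finset.mem_union] at hs
      rcases hs with hs | hs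
      · exact hu s ⟨hs, hps⟩
      · exact absurd ((hB.1 s hs).2 hps) (Finset.disjoint_left.1 hd hp)
    · obtain ⟨t, ⟨ht, hpt⟩, hu⟩ := hB.2 p hp
      refine ⟨t, ⟨Finset.mem_union_right _ ht, hpt⟩, ?_⟩
      rintro s ⟨hs, hps⟩
      rw [Finset.mem_union] at hs
      rcases hs with hs | hs
      · exact absurd hp (Finset.disjoint_left.1 hd ((hA.1 s hs).2 hps))
      · exact hu s ⟨hs, hps⟩

lemma IsTile.nonempty {t : Finset Pt} (h : IsTile t) : t.Nonempty := by
  rw [← Finset.card_pos, h.1]; norm_num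

lemma IsTiling.recover {A B : Finset Pt} {P Q : Finset (Finset Pt)} (hd : Disjoint A B)
    (hA : IsTiling A P) (hB : IsTiling B Q) : (P ∪ Q).filter (· ⊆ A) = P := by
  ext t
  rw [Finset.mem_filter, Finset.mem_union]
  constructor
  · rintro ⟨ht | ht, hsub⟩
    · exact ht
    · obtain ⟨p, hp⟩ := (hB.1 t ht).1.nonempty
      exact absurd ((hB.1 t ht).2 hp) (Finset.disjoint_left.1 hd (hsub hp))
  · intro ht
    exact ⟨Or.inl ht, (hA.1 t ht).2⟩

lemma IsTiling.recover' {A B : Finset Pt} {P Q : Finset (Finset Pt)} (hd : Disjoint A B)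
    (hA : IsTiling A P) (hB : IsTiling B Q) : (P ∪ Q).filter (· ⊆ B) = Q := by
  rw [Finset.union_comm]
  exact IsTiling.recover hd.symm hB hA

lemma IsTile.image {t : Finset Pt} {f : Pt → Pt} (hf : Function.Injective f)
    (hadj : ∀ p q, Adj p q → Adj (f p) (f q)) (h : IsTile t) : IsTile (t.image f) := by
  refine ⟨by rw [Finset.card_image_of_injective _ hf, h.1], ?_⟩
  intro p hp q hq hpq
  rw [Finset.mem_image] at hp hq
  obtain ⟨p, hp, rfl⟩ := hp
  obtain ⟨q, hq, rfl⟩ := hq
  exact hadj p q (h.2 p hp q hq (fun e => hpq (by rw [e])))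

lemma IsTiling.image {A : Finset Pt} {P : Finset (Finset Pt)} {f : Pt → Pt} (hf : Function.Injective f)
    (hadj : ∀ p q, Adj p q → Adj (f p) (f q)) (h : IsTiling A P) :
    IsTiling (A.image f) (P.image (Finset.image f)) := by
  refine ⟨?_, ?_⟩
  · intro t ht
    rw [Finset.mem_image] at ht
    obtain ⟨t, ht, rfl⟩ := ht
    exact ⟨(h.1 t ht).1.image hf hadj, Finset.image_subset_image (h.1 t ht).2⟩
  · intro p hp
    rw [Finset.mem_image] at hp
    obtain ⟨p, hp, rfl⟩ := hp
    obtain ⟨t, ⟨ht, hpt⟩, hu⟩ := h.2 p hp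
    refine ⟨t.image f, ⟨Finset.mem_image_of_mem _ ht, Finset.mem_image_of_mem _ hpt⟩, ?_⟩
    rintro s ⟨hs, hps⟩
    rw [Finset.mem_image] at hs
    obtain ⟨s, hs, rfl⟩ := hs
    rw [Finset.mem_image] at hps
    obtain ⟨p', hp', he⟩ := hps
    rw [hf he] at hp'
    rw [hu s ⟨hs, hp'⟩]

/-- number of tilings of a region -/
noncomputable def cnt (A : Finset Pt) : ℕ := Set.ncard {P | IsTiling A P}

lemma finite_tilings (A : Finset Pt) : {P | IsTiling A P}.Finite := by
  apply Set.Finite.subset (A.powerset.powerset).finite_toSet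
  intro P hP
  rw [Finset.mem_coe, Finset.mem_powerset]
  intro t ht
  rw [Finset.mem_powerset]
  exact (hP.1 t ht).2

lemma cnt_union {A B : Finset Pt} (hd : Disjoint A B) : cnt A * cnt B ≤ cnt (A ∪ B) := by
  unfold cnt
  rw [← Set.ncard_prod]
  apply Set.ncard_le_ncard_of_injOn (fun p => p.1 ∪ p.2) _ _ (finite_tilings _)
  · rintro ⟨P, Q⟩ ⟨hP, hQ⟩
    exact IsTiling.union hd hP hQ
  · rintro ⟨P, Q⟩ ⟨hP, hQ⟩ ⟨P', Q'⟩ ⟨hP', hQ'⟩ h
    simp only at h
    have e1 := IsTiling.recover hd hP hQ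
    have e2 := IsTiling.recover hd hP' hQ'
    have e3 := IsTiling.recover' hd hP hQ
    have e4 := IsTiling.recover' hd hP' hQ'
    simp only at e1 e2 e3 e4
    rw [h] at e1 e3
    rw [Prod.mk.injEq]
    exact ⟨e1.symm.trans e2, e3.symm.trans e4⟩

lemma cnt_image {A : Finset Pt} {f : Pt → Pt} (hf : Function.Injective f)
    (hadj : ∀ p q, Adj p q → Adj (f p) (f q)) : cnt A ≤ cnt (A.image f) := by
  unfold cnt
  apply Set.ncard_le_ncard_of_injOn (fun P => P.image (Finset.image f)) _ _ (finite_tilings _)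
  · intro P hP
    exact IsTiling.image hf hadj hP
  · intro P _ Q _ h
    exact Finset.image_injective (Finset.image_injective hf) h

lemma cnt_pos {A : Finset Pt} {P : Finset (Finset Pt)} (h : IsTiling A P) : 1 ≤ cnt A := by
  unfold cnt
  rw [Nat.one_le_iff_ne_zero, Ne, Set.ncard_eq_zero (finite_tilings A)]
  intro he
  have : P ∈ {P | IsTiling A P} := h
  rw [he] at this
  exact this

lemma cnt_two {A : Finset Pt} {P Q : Finset (Finset Pt)} (h : IsTiling A P) (h' : IsTiling A Q)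
    (hne : P ≠ Q) : 2 ≤ cnt A := by
  unfold cnt
  rw [← Set.ncard_pair hne]
  apply Set.ncard_le_ncard _ (finite_tilings A)
  rintro R (rfl | rfl)
  · exact h
  · exact h'

/-! ### checking explicit tilings -/

/-- a tile given as a triple of points -/
def toF (t : Pt × Pt × Pt) : Finset Pt := {t.1, t.2.1, t.2.2}

def toL (t : Pt × Pt × Pt) : List Pt := [t.1, t.2.1, t.2.2]

lemma mem_toF {t : Pt × Pt × Pt} {p : Pt} : p ∈ toF t ↔ p ∈ toL t := by
  simp [toF, toL]

lemma tiling_of_list (A : Finset Pt) (L : List (Pt × Pt × Pt))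
    (hadj : ∀ t ∈ L, Adj t.1 t.2.1 ∧ Adj t.2.1 t.2.2 ∧ Adj t.1 t.2.2)
    (hnd : (L.flatMap toL).Nodup) (hA : ∀ p, p ∈ A ↔ p ∈ L.flatMap toL) :
    IsTiling A (L.map toF).toFinset := by
  rw [List.nodup_flatMap] at hnd
  obtain ⟨hnd1, hnd2⟩ := hnd
  refine ⟨?_, ?_⟩
  · intro t ht
    rw [List.mem_toFinset, List.mem_map] at ht
    obtain ⟨t, ht, rfl⟩ := ht
    have h1 := hnd1 t ht
    obtain ⟨a1, a2, a3⟩ := hadj t ht
    refine ⟨⟨?_, ?_⟩, ?_⟩
    · simp only [toL, List.nodup_cons, List.mem_cons, not_or, List.not_mem_nil,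
        not_false_eq_true, and_true, List.nodup_nil] at h1
      rw [toF, Finset.card_eq_three]
      exact ⟨_, _, _, h1.1.1, h1.1.2, h1.2, rfl⟩
    · intro p hp q hq hpq
      simp only [toF, Finset.mem_insert, Finset.mem_singleton] at hp hq
      rcases hp with rfl | rfl | rfl <;> rcases hq with rfl | rfl | rfl <;>
        first
          | exact absurd rfl hpq
          | exact a1
          | exact a2
          | exact a3
          | exact a1.symm
          | exact a2.symm
          | exact a3.symm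
    · intro p hp
      rw [hA, List.mem_flatMap]
      exact ⟨t, ht, mem_toF.1 hp⟩
  · intro p hp
    rw [hA, List.mem_flatMap] at hp
    obtain ⟨t, ht, hpt⟩ := hp
    refine ⟨toF t, ⟨?_, mem_toF.2 hpt⟩, ?_⟩
    · rw [List.mem_toFinset]; exact List.mem_map_of_mem ht
    · rintro s ⟨hs, hps⟩
      rw [List.mem_toFinset, List.mem_map] at hs
      obtain ⟨s, hs, rfl⟩ := hs
      rw [mem_toF] at hps
      by_contra hne
      have hne' : t ≠ s := fun e => hne (by rw [e])
      have hsy : Std.Symm (Function.onFun List.Disjoint toL) := ⟨fun a b h => h.symm⟩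
      have := hnd2.forall ht hs hne'
      exact this hpt hps


/-! ### translations, rotation -/

def tr (v : Pt) (p : Pt) : Pt := (p.1 + v.1, p.2.1 + v.2.1, p.2.2 + v.2.2)

lemma tr_inj (v : Pt) : Function.Injective (tr v) := by
  rintro ⟨a, b, c⟩ ⟨a', b', c'⟩ h
  simp only [tr, Prod.mk.injEq, add_left_inj] at h ⊢
  exact h

lemma adj_tr (v : Pt) (p q : Pt) (h : Adj p q) : Adj (tr v p) (tr v q) := by
  simp only [Adj, tr] at *; ring_nf at *; exact h

lemma mem_image_tr {A : Finset Pt} {v p : Pt} :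
    p ∈ A.image (tr v) ↔ (p.1 - v.1, p.2.1 - v.2.1, p.2.2 - v.2.2) ∈ A := by
  rw [Finset.mem_image]
  constructor
  · rintro ⟨q, hq, rfl⟩
    simpa [tr] using hq
  · intro h
    exact ⟨_, h, by simp [tr]⟩

lemma mem_image_rot {A : Finset Pt} {p : Pt} : p ∈ A.image rot ↔ (p.2.2, p.1, p.2.1) ∈ A := by
  rw [Finset.mem_image]
  constructor
  · rintro ⟨q, hq, rfl⟩
    exact hq
  · intro h
    exact ⟨_, h, rfl⟩

/-! ### parallelograms -/

def phi (u : ℤ × ℤ) : Pt := (-u.1, u.1 - u.2, u.2)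

noncomputable def box (a b : ℤ) (w h : ℕ) : Finset Pt :=
  (Finset.Ico a (a+w) ×ˢ Finset.Ico b (b+h)).image phi

lemma mem_box {a b : ℤ} {w h : ℕ} {p : Pt} : p ∈ box a b w h ↔
    p.1 + p.2.1 + p.2.2 = 0 ∧ a ≤ -p.1 ∧ -p.1 < a + w ∧ b ≤ p.2.2 ∧ p.2.2 < b + h := by
  unfold box
  rw [Finset.mem_image]
  constructor
  · rintro ⟨u, hu, rfl⟩
    simp only [Finset.mem_product, Finset.mem_Ico] at hu
    simp only [phi]
    omega
  · rintro ⟨h0, h1, h2, h3, h4⟩
    refine ⟨(-p.1, p.2.2), ?_, ?_⟩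
    · simp only [Finset.mem_product, Finset.mem_Ico]; omega
    · obtain ⟨x, y, z⟩ := p
      simp only at h0
      simp only [phi]
      rw [Prod.mk.injEq, Prod.mk.injEq]
      omega

lemma cnt_box_translate (a b : ℤ) (w h : ℕ) : cnt (box 0 0 w h) ≤ cnt (box a b w h) := by
  have : box a b w h = (box 0 0 w h).image (tr (-a, a - b, b)) := by
    ext p
    rw [mem_image_tr, mem_box, mem_box]
    simp only
    constructor <;> intro hh <;> omega
  rw [this]
  exact cnt_image (tr_inj _) (adj_tr _)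

lemma cnt_box_w (a b : ℤ) (w₁ w₂ h : ℕ) :
    cnt (box a b w₁ h) * cnt (box (a + w₁) b w₂ h) ≤ cnt (box a b (w₁ + w₂) h) := by
  have : box a b (w₁ + w₂) h = box a b w₁ h ∪ box (a + w₁) b w₂ h := by
    ext p
    rw [Finset.mem_union, mem_box, mem_box, mem_box]
    push_cast
    constructor
    · intro hh
      by_cases hc : -p.1 < a + w₁
      · left; omega
      · right; omega
    · rintro (hh | hh) <;> omega
  rw [this]
  apply cnt_union
  rw [Finset.disjoint_left]
  intro p hp hp'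
  rw [mem_box] at hp hp'
  omega

lemma cnt_box_h (a b : ℤ) (w h₁ h₂ : ℕ) :
    cnt (box a b w h₁) * cnt (box a (b + h₁) w h₂) ≤ cnt (box a b w (h₁ + h₂)) := by
  have : box a b w (h₁ + h₂) = box a b w h₁ ∪ box a (b + h₁) w h₂ := by
    ext p
    rw [Finset.mem_union, mem_box, mem_box, mem_box]
    push_cast
    constructor
    · intro hh
      by_cases hc : p.2.2 < b + h₁
      · left; omega
      · right; omega
    · rintro (hh | hh) <;> omega
  rw [this]
  apply cnt_union
  rw [Finset.disjoint_left]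
  intro p hp hp'
  rw [mem_box] at hp hp'
  omega

def up (x y : ℤ) : Pt × Pt × Pt := (phi (x, y), phi (x+1, y), phi (x+1, y+1))
def dn (x y : ℤ) : Pt × Pt × Pt := (phi (x, y), phi (x, y+1), phi (x+1, y+1))

lemma tile_32 : IsTiling (box 0 0 3 2) ([dn 0 0, up 1 0].map toF).toFinset := by
  apply tiling_of_list
  · decide
  · decide
  · intro p
    rw [mem_box]
    constructor
    · rintro ⟨h0, h1, h2, h3, h4⟩
      obtain ⟨x, y, z⟩ := p
      simp only at h0 h1 h2 h3 h4
      have hy : y = -x - z := by omega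
      subst hy
      have hx : -2 ≤ x := by push_cast at h2; omega
      have hx' : x ≤ 0 := by omega
      have hz : z ≤ 1 := by push_cast at h4; omega
      interval_cases x <;> interval_cases z <;> decide
    · intro h
      simp only [List.flatMap_cons, List.flatMap_nil, toL, up, dn, phi, List.mem_append,
        List.mem_cons, List.not_mem_nil, or_false] at h
      rcases h with (rfl | rfl | rfl) | (rfl | rfl | rfl) <;> norm_num

lemma tile_23 : IsTiling (box 0 0 2 3) ([up 0 0, dn 0 1].map toF).toFinset := by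
  apply tiling_of_list
  · decide
  · decide
  · intro p
    rw [mem_box]
    constructor
    · rintro ⟨h0, h1, h2, h3, h4⟩
      obtain ⟨x, y, z⟩ := p
      simp only at h0 h1 h2 h3 h4
      have hy : y = -x - z := by omega
      subst hy
      have hx : -1 ≤ x := by push_cast at h2; omega
      have hx' : x ≤ 0 := by omega
      have hz : z ≤ 2 := by push_cast at h4; omega
      interval_cases x <;> interval_cases z <;> decide
    · intro h
      simp only [List.flatMap_cons, List.flatMap_nil, toL, up, dn, phi, List.mem_append,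
        List.mem_cons, List.not_mem_nil, or_false] at h
      rcases h with (rfl | rfl | rfl) | (rfl | rfl | rfl) <;> norm_num

def LA : List (Pt × Pt × Pt) :=
  [dn 0 0, up 1 0, dn 3 0, up 4 0, dn 0 2, up 1 2, dn 3 2, up 4 2, dn 0 4, up 1 4, dn 3 4, up 4 4]
def LB : List (Pt × Pt × Pt) :=
  [up 0 0, dn 0 1, up 2 0, dn 2 1, up 4 0, dn 4 1, up 0 3, dn 0 4, up 2 3, dn 2 4, up 4 3, dn 4 4]

lemma check_box (L : List (Pt × Pt × Pt)) (w h : ℕ)
    (h1 : ∀ t ∈ L.flatMap toL, t.1 + t.2.1 + t.2.2 = 0 ∧ 0 ≤ -t.1 ∧ -t.1 < w ∧ 0 ≤ t.2.2 ∧ t.2.2 < h)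
    (h2 : ∀ x ∈ List.range w, ∀ z ∈ List.range h, ((-(x:ℤ), (x:ℤ) - z, (z:ℤ)) : Pt) ∈ L.flatMap toL)
    (p : Pt) : p ∈ box 0 0 w h ↔ p ∈ L.flatMap toL := by
  rw [mem_box]
  constructor
  · rintro ⟨h0, h3, h4, h5, h6⟩
    obtain ⟨x, y, z⟩ := p
    simp only at h0 h3 h4 h5 h6
    have := h2 (-x).toNat (by rw [List.mem_range]; omega) z.toNat (by rw [List.mem_range]; omega)
    have e : ((-(((-x).toNat : ℕ):ℤ), (((-x).toNat : ℕ):ℤ) - ((z.toNat : ℕ) : ℤ), ((z.toNat : ℕ):ℤ)) : Pt) = (x, y, z) := by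
      rw [Prod.mk.injEq, Prod.mk.injEq]; omega
    rwa [e] at this
  · intro h
    have := h1 p h
    omega

lemma tile_A : IsTiling (box 0 0 6 6) (LA.map toF).toFinset := by
  apply tiling_of_list
  · decide
  · decide +kernel
  · apply check_box
    · decide +kernel
    · decide +kernel

lemma tile_B : IsTiling (box 0 0 6 6) (LB.map toF).toFinset := by
  apply tiling_of_list
  · decide
  · decide +kernel
  · apply check_box
    · decide +kernel
    · decide +kernel

lemma A_ne_B : (LA.map toF).toFinset ≠ (LB.map toF).toFinset := by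
  intro h
  have h1 : toF (dn 0 0) ∈ (LA.map toF).toFinset := by
    rw [List.mem_toFinset]; exact List.mem_map_of_mem (by simp [LA])
  rw [h] at h1
  have h2 : toF (up 0 0) ∈ (LB.map toF).toFinset := by
    rw [List.mem_toFinset]; exact List.mem_map_of_mem (by simp [LB])
  have h3 := tile_B.inter_eq h1 h2 (p := phi (0, 0)) (by simp [toF, dn]) (by simp [toF, up])
  revert h3
  decide +kernel

lemma cnt66 (a b : ℤ) : 2 ≤ cnt (box a b 6 6) :=
  (cnt_two tile_A tile_B A_ne_B).trans (cnt_box_translate a b 6 6)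

lemma cnt612 (a b : ℤ) : 4 ≤ cnt (box a b 6 12) := by
  have h := cnt_box_h a b 6 6 6
  have h1 := cnt66 a b
  have h2 := cnt66 a (b + (6:ℕ))
  calc 4 = 2 * 2 := by norm_num
    _ ≤ _ := Nat.mul_le_mul h1 h2
    _ ≤ _ := h

lemma box_empty_w (a b : ℤ) (h : ℕ) : 1 ≤ cnt (box a b 0 h) := by
  have : box a b 0 h = ∅ := by
    rw [Finset.eq_empty_iff_forall_notMem]; intro p hp; rw [mem_box] at hp; push_cast at hp; omega
  rw [this]
  exact cnt_pos (P := ∅) ⟨by simp, by simp⟩

lemma box_empty_h (a b : ℤ) (w : ℕ) : 1 ≤ cnt (box a b w 0) := by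
  have : box a b w 0 = ∅ := by
    rw [Finset.eq_empty_iff_forall_notMem]; intro p hp; rw [mem_box] at hp; push_cast at hp; omega
  rw [this]
  exact cnt_pos (P := ∅) ⟨by simp, by simp⟩

lemma cnt6w (w : ℕ) : ∀ a b : ℤ, 4 ^ w ≤ cnt (box a b (6 * w) 12) := by
  induction w with
  | zero => intro a b; simpa using box_empty_w a b 12
  | succ w ih =>
    intro a b
    have h := cnt_box_w a b (6 * w) 6 12
    calc 4 ^ (w+1) = 4 ^ w * 4 := by ring
      _ ≤ _ := Nat.mul_le_mul (ih a b) (cnt612 _ b)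
      _ ≤ _ := h
      _ = _ := by ring_nf

lemma good_mul_h (w h : ℕ) (hg : ∀ a b : ℤ, 1 ≤ cnt (box a b w h)) (m : ℕ) :
    ∀ a b : ℤ, 1 ≤ cnt (box a b w (h * m)) := by
  induction m with
  | zero => intro a b; simpa using box_empty_h a b w
  | succ m ih =>
    intro a b
    have h' := cnt_box_h a b w (h * m) h
    calc 1 = 1 * 1 := by norm_num
      _ ≤ _ := Nat.mul_le_mul (ih a b) (hg _ _)
      _ ≤ _ := h'
      _ = _ := by ring_nf

lemma good_2_12 : ∀ a b : ℤ, 1 ≤ cnt (box a b 2 12) :=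
  good_mul_h 2 3 (fun a b => (cnt_pos tile_23).trans (cnt_box_translate a b 2 3)) 4

lemma good_3_12 : ∀ a b : ℤ, 1 ≤ cnt (box a b 3 12) :=
  good_mul_h 3 2 (fun a b => (cnt_pos tile_32).trans (cnt_box_translate a b 3 2)) 6

lemma good_w_12 (w : ℕ) (hw : w ≠ 1) : ∀ a b : ℤ, 1 ≤ cnt (box a b w 12) := by
  induction w using Nat.strong_induction_on with
  | _ w ih =>
    intro a b
    by_cases h0 : w = 0
    · subst h0; exact box_empty_w a b 12
    by_cases h2 : w = 2
    · subst h2; exact good_2_12 a b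
    by_cases h3 : w = 3
    · subst h3; exact good_3_12 a b
    have h := cnt_box_w a b (w-2) 2 12
    have e : w - 2 + 2 = w := by omega
    rw [e] at h
    calc 1 = 1 * 1 := by norm_num
      _ ≤ _ := Nat.mul_le_mul (ih (w-2) (by omega) (by omega) a b) (good_2_12 _ _)
      _ ≤ _ := h


/-! ### explicit base tilings -/

def conv (t : Bool × ℕ × ℕ × ℕ) : Pt × Pt × Pt :=
  if t.1 then ((t.2.1+1, t.2.2.1, t.2.2.2), (t.2.1, t.2.2.1+1, t.2.2.2), (t.2.1, t.2.2.1, t.2.2.2+1))
  else ((t.2.1+1, t.2.2.1+1, t.2.2.2), (t.2.1+1, t.2.2.1, t.2.2.2+1), (t.2.1, t.2.2.1+1, t.2.2.2+1))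

def codes (t : Bool × ℕ × ℕ × ℕ) : List ℕ :=
  if t.1 then [64 * (t.2.1+1) + t.2.2.1, 64 * t.2.1 + (t.2.2.1+1), 64 * t.2.1 + t.2.2.1]
  else [64 * (t.2.1+1) + (t.2.2.1+1), 64 * (t.2.1+1) + t.2.2.1, 64 * t.2.1 + (t.2.2.1+1)]

def valid (N : ℕ) (t : Bool × ℕ × ℕ × ℕ) : Bool :=
  if t.1 then t.2.1 + t.2.2.1 + t.2.2.2 + 2 == N else t.2.1 + t.2.2.1 + t.2.2.2 + 3 == N

def chk : List ℕ → ℕ → Bool
  | [], _ => true
  | c :: l, m => if m.testBit c then false else chk l (m ||| (1 <<< c))

lemma chk_spec (l : List ℕ) : ∀ m, chk l m = true → l.Nodup ∧ ∀ c ∈ l, m.testBit c = false := by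
  induction l with
  | nil => intro m _; simp
  | cons c l ih =>
    intro m h
    rw [chk] at h
    by_cases hm : m.testBit c = true
    · rw [if_pos hm] at h; exact absurd h (by simp)
    · rw [if_neg hm] at h
      obtain ⟨h1, h2⟩ := ih _ h
      have hc : ∀ c' ∈ l, m.testBit c' = false ∧ c' ≠ c := by
        intro c' hc'
        have := h2 c' hc'
        rw [Nat.testBit_or, Bool.or_eq_false_iff] at this
        refine ⟨this.1, ?_⟩
        rintro rfl
        have h3 := this.2
        rw [Nat.one_shiftLeft, Nat.testBit_two_pow_self] at h3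
        exact absurd h3 (by simp)
      refine ⟨?_, ?_⟩
      · rw [List.nodup_cons]
        exact ⟨fun hcl => (hc c hcl).2 rfl, h1⟩
      · intro c' hc'
        rw [List.mem_cons] at hc'
        rcases hc' with rfl | hc'
        · simpa using hm
        · exact (hc c' hc').1

lemma conv_adj (t : Bool × ℕ × ℕ × ℕ) : Adj (conv t).1 (conv t).2.1 ∧ Adj (conv t).2.1 (conv t).2.2 ∧
    Adj (conv t).1 (conv t).2.2 := by
  obtain ⟨b, i, j, k⟩ := t
  cases b <;> simp only [conv, Adj, if_true, if_false, Bool.false_eq_true] <;> refine ⟨?_, ?_, ?_⟩ <;> ring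

lemma conv_mem {N : ℕ} {t : Bool × ℕ × ℕ × ℕ} (h : valid N t = true) : ∀ p ∈ toL (conv t), p ∈ T N := by
  obtain ⟨b, i, j, k⟩ := t
  intro p hp
  rw [mem_T]
  cases b
  · simp only [valid, Bool.false_eq_true, if_false, beq_iff_eq] at h
    simp only [toL, conv, Bool.false_eq_true, if_false, List.mem_cons, List.not_mem_nil, or_false] at hp
    rcases hp with rfl | rfl | rfl <;> simp only <;> omega
  · simp only [valid, if_true, beq_iff_eq] at h
    simp only [toL, conv, if_true, List.mem_cons, List.not_mem_nil, or_false] at hp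
    rcases hp with rfl | rfl | rfl <;> simp only <;> omega

def gcode (p : Pt) : ℕ := 64 * p.1.toNat + p.2.1.toNat

lemma map_gcode (t : Bool × ℕ × ℕ × ℕ) : (toL (conv t)).map gcode = codes t := by
  obtain ⟨b, i, j, k⟩ := t
  cases b <;> simp only [toL, conv, codes, gcode, Bool.false_eq_true, if_true, if_false, List.map_cons,
    List.map_nil] <;> norm_cast

lemma tiling_of_codes (N : ℕ) (L : List (Bool × ℕ × ℕ × ℕ)) (hv : L.all (valid N) = true)
    (hn : chk (L.flatMap codes) 0 = true) (hlen : 6 * L.length = N * (N + 1)) :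
    IsTiling (T N) ((L.map conv).map toF).toFinset := by
  have hnd : ((L.map conv).flatMap toL).Nodup := by
    apply List.Nodup.of_map gcode
    have : ((L.map conv).flatMap toL).map gcode = L.flatMap codes := by
      rw [List.map_flatMap, List.flatMap_map]
      congr 1
      funext t
      exact map_gcode t
    rw [this]
    exact (chk_spec _ _ hn).1
  apply tiling_of_list
  · intro t ht
    rw [List.mem_map] at ht
    obtain ⟨c, _, rfl⟩ := ht
    exact conv_adj c
  · exact hnd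
  · have hsub : ((L.map conv).flatMap toL).toFinset ⊆ T N := by
      intro p hp
      rw [List.mem_toFinset, List.mem_flatMap] at hp
      obtain ⟨t, ht, hpt⟩ := hp
      rw [List.mem_map] at ht
      obtain ⟨c, hc, rfl⟩ := ht
      exact conv_mem (List.all_eq_true.1 hv c hc) p hpt
    have hcard : (T N).card ≤ ((L.map conv).flatMap toL).toFinset.card := by
      rw [List.toFinset_card_of_nodup hnd]
      have h3 : ∀ L : List (Pt × Pt × Pt), (L.flatMap toL).length = 3 * L.length := by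
        intro L
        induction L with
        | nil => simp
        | cons a L ih => rw [List.flatMap_cons, List.length_append, ih]; simp [toL]; ring
      rw [h3, List.length_map]
      have := card_T N
      omega
    have heq := Finset.eq_of_subset_of_card_le hsub hcard
    intro p
    rw [← heq, List.mem_toFinset]

def rotc (t : Bool × ℕ × ℕ × ℕ) : Bool × ℕ × ℕ × ℕ := (t.1, t.2.2.1, t.2.2.2, t.2.1)

lemma toF_rotc (t : Bool × ℕ × ℕ × ℕ) : (toF (conv t)).image rot = toF (conv (rotc t)) := by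
  obtain ⟨b, i, j, k⟩ := t
  ext p
  cases b <;> simp only [toF, conv, rotc, Bool.false_eq_true, if_true, if_false, Finset.image_insert,
    Finset.image_singleton, rot, Finset.mem_insert, Finset.mem_singleton] <;> tauto

def full (C L : List (Bool × ℕ × ℕ × ℕ)) : List (Bool × ℕ × ℕ × ℕ) :=
  C ++ L.flatMap (fun t => [t, rotc t, rotc (rotc t)])

lemma rotSymm_full (C L : List (Bool × ℕ × ℕ × ℕ)) (hC : ∀ c ∈ C, rotc c = c) :
    RotSymm (((full C L).map conv).map toF).toFinset := by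
  have key : ∀ t ∈ full C L, rotc t ∈ full C L := by
    intro t ht
    rw [full, List.mem_append] at ht
    rcases ht with ht | ht
    · rw [hC t ht]; exact List.mem_append_left _ ht
    · rw [List.mem_flatMap] at ht
      obtain ⟨u, hu, htu⟩ := ht
      rw [full, List.mem_append, List.mem_flatMap]
      right
      refine ⟨u, hu, ?_⟩
      simp only [List.mem_cons, List.not_mem_nil, or_false] at htu ⊢
      rcases htu with rfl | rfl | rfl
      · right; left; rfl
      · right; right; rfl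
      · left; rfl
  intro t ht
  rw [List.mem_toFinset, List.mem_map] at ht
  obtain ⟨u, hu, rfl⟩ := ht
  rw [List.mem_map] at hu
  obtain ⟨c, hc, rfl⟩ := hu
  rw [toF_rotc, List.mem_toFinset]
  exact List.mem_map_of_mem (List.mem_map_of_mem (key c hc))

lemma finite_sym (N : ℕ) : {P | IsTiling (T N) P ∧ RotSymm P}.Finite :=
  (finite_tilings (T N)).subset (fun _ h => h.1)

lemma S_pos_of (N : ℕ) (C L : List (Bool × ℕ × ℕ × ℕ)) (hC : ∀ c ∈ C, rotc c = c)
    (hv : (full C L).all (valid N) = true)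
    (hn : chk ((full C L).flatMap codes) 0 = true) (hlen : 6 * (full C L).length = N * (N + 1)) :
    1 ≤ S N := by
  unfold S
  rw [Nat.one_le_iff_ne_zero, Ne, Set.ncard_eq_zero (finite_sym N)]
  intro he
  have : (((full C L).map conv).map toF).toFinset ∈ {P | IsTiling (T N) P ∧ RotSymm P} :=
    ⟨tiling_of_codes N _ hv hn hlen, rotSymm_full C L hC⟩
  rw [he] at this
  exact this

def C9 : List (Bool × ℕ × ℕ × ℕ) := []
def L9 : List (Bool × ℕ × ℕ × ℕ) :=
  [(true,0,0,7), (true,0,5,2), (true,0,3,4), (false,0,1,5), (false,1,3,2)]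

def C11 : List (Bool × ℕ × ℕ × ℕ) := [(true,3,3,3)]
def L11 : List (Bool × ℕ × ℕ × ℕ) :=
  [(true,0,0,9), (true,0,7,2), (true,0,5,4), (true,0,3,6), (false,0,1,7), (false,1,5,2),
   (false,1,3,4)]

def C24 : List (Bool × ℕ × ℕ × ℕ) := [(false,7,7,7)]
def L24 : List (Bool × ℕ × ℕ × ℕ) :=
  [(true,0,0,22), (true,0,20,2), (true,0,18,4), (true,0,16,6), (true,0,14,8), (true,0,12,10),
   (true,0,10,12), (true,0,8,14), (true,0,6,16), (false,0,4,17), (true,0,3,19), (false,0,1,20),
   (false,1,18,2), (false,1,16,4), (false,1,14,6), (false,1,12,8), (false,1,10,10),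
   (false,1,8,12), (false,1,6,14), (false,2,4,15), (true,2,3,17), (true,3,15,4), (true,3,13,6),
   (true,3,11,8), (true,3,9,10), (false,3,7,11), (true,3,6,13), (false,4,4,13), (false,4,11,6),
   (false,4,9,8), (false,5,7,9), (true,5,6,11), (true,6,9,7)]

def C26 : List (Bool × ℕ × ℕ × ℕ) := []
def L26 : List (Bool × ℕ × ℕ × ℕ) :=
  [(true,0,0,24), (true,0,22,2), (true,0,20,4), (true,0,18,6), (true,0,16,8), (true,0,14,10),
   (true,0,12,12), (true,0,10,14), (true,0,8,16), (true,0,6,18), (false,0,4,19), (true,0,3,21),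
   (false,0,1,22), (false,1,20,2), (false,1,18,4), (false,1,16,6), (false,1,14,8),
   (false,1,12,10), (false,1,10,12), (false,1,8,14), (false,1,6,16), (false,2,4,17),
   (true,2,3,19), (true,3,17,4), (true,3,15,6), (true,3,13,8), (true,3,11,10), (true,3,9,12),
   (false,3,7,13), (true,3,6,15), (false,4,4,15), (false,4,13,6), (false,4,11,8), (false,4,9,10),
   (false,5,7,11), (true,5,6,13), (true,6,11,7), (true,6,9,9), (false,7,7,9)]

def C33 : List (Bool × ℕ × ℕ × ℕ) := [(false,10,10,10)]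
def L33 : List (Bool × ℕ × ℕ × ℕ) :=
  [(true,0,0,31), (true,0,29,2), (true,0,27,4), (true,0,25,6), (true,0,23,8), (true,0,21,10),
   (true,0,19,12), (true,0,17,14), (true,0,15,16), (true,0,13,18), (true,0,11,20), (true,0,9,22),
   (true,0,7,24), (true,0,5,26), (true,0,3,28), (false,0,1,29), (false,1,27,2), (false,1,25,4),
   (false,1,23,6), (false,1,21,8), (false,1,19,10), (false,1,17,12), (false,1,15,14),
   (false,1,13,16), (false,1,11,18), (false,1,9,20), (false,1,7,22), (false,1,5,24),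
   (false,1,3,26), (true,3,3,25), (true,3,23,5), (true,3,21,7), (true,3,19,9), (true,3,17,11),
   (true,3,15,13), (true,3,13,15), (true,3,11,17), (true,3,9,19), (false,3,7,20), (true,3,6,22),
   (false,3,4,23), (false,4,21,5), (false,4,19,7), (false,4,17,9), (false,4,15,11),
   (false,4,13,13), (false,4,11,15), (false,4,9,17), (false,5,7,18), (true,5,6,20),
   (true,6,18,7), (true,6,16,9), (true,6,14,11), (true,6,12,13), (false,6,10,14), (true,6,9,16),
   (false,7,7,16), (false,7,14,9), (false,7,12,11), (false,8,10,12), (true,8,9,14), (true,9,12,10)]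

def C35 : List (Bool × ℕ × ℕ × ℕ) := []
def L35 : List (Bool × ℕ × ℕ × ℕ) :=
  [(true,0,0,33), (true,0,31,2), (true,0,29,4), (true,0,27,6), (true,0,25,8), (true,0,23,10),
   (true,0,21,12), (true,0,19,14), (true,0,17,16), (true,0,15,18), (true,0,13,20),
   (true,0,11,22), (true,0,9,24), (true,0,7,26), (true,0,5,28), (true,0,3,30), (false,0,1,31),
   (false,1,29,2), (false,1,27,4), (false,1,25,6), (false,1,23,8), (false,1,21,10),
   (false,1,19,12), (false,1,17,14), (false,1,15,16), (false,1,13,18), (false,1,11,20),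
   (false,1,9,22), (false,1,7,24), (false,1,5,26), (false,1,3,28), (true,3,3,27), (true,3,25,5),
   (true,3,23,7), (true,3,21,9), (true,3,19,11), (true,3,17,13), (true,3,15,15), (true,3,13,17),
   (true,3,11,19), (true,3,9,21), (false,3,7,22), (true,3,6,24), (false,3,4,25), (false,4,23,5),
   (false,4,21,7), (false,4,19,9), (false,4,17,11), (false,4,15,13), (false,4,13,15),
   (false,4,11,17), (false,4,9,19), (false,5,7,20), (true,5,6,22), (true,6,20,7), (true,6,18,9),
   (true,6,16,11), (true,6,14,13), (true,6,12,15), (false,6,10,16), (true,6,9,18),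
   (false,7,7,18), (false,7,16,9), (false,7,14,11), (false,7,12,13), (false,8,10,14),
   (true,8,9,16), (true,9,14,10), (true,9,12,12), (false,10,10,12)]

def L12 : List (Bool × ℕ × ℕ × ℕ) :=
  [(true,0,0,10), (true,0,2,8), (true,0,4,6), (true,0,6,4), (true,0,8,2), (true,0,10,0),
   (false,1,0,8), (false,1,2,6), (false,1,4,4), (false,1,6,2), (false,1,8,0), (true,3,0,7),
   (true,3,2,5), (true,3,4,3), (false,3,5,1), (true,3,7,0), (false,4,0,5), (false,4,2,3),
   (false,5,3,1), (true,5,5,0), (true,6,0,4), (false,6,1,2), (true,7,3,0), (true,8,0,2),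
   (false,8,1,0), (true,10,0,0)]


lemma S_base (r : ℕ) (hr : r = 0 ∨ r = 2 ∨ r = 9 ∨ r = 11 ∨ r = 24 ∨ r = 26 ∨ r = 33 ∨ r = 35) :
    1 ≤ S r := by
  rcases hr with rfl | rfl | rfl | rfl | rfl | rfl | rfl | rfl
  · exact S_pos_of 0 [] [] (by decide) (by decide) (by decide) (by decide)
  · exact S_pos_of 2 [(true,0,0,0)] [] (by decide) (by decide) (by decide +kernel) (by decide)
  · exact S_pos_of 9 C9 L9 (by decide +kernel) (by decide +kernel) (by decide +kernel) (by decide +kernel)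
  · exact S_pos_of 11 C11 L11 (by decide +kernel) (by decide +kernel) (by decide +kernel) (by decide +kernel)
  · exact S_pos_of 24 C24 L24 (by decide +kernel) (by decide +kernel) (by decide +kernel) (by decide +kernel)
  · exact S_pos_of 26 C26 L26 (by decide +kernel) (by decide +kernel) (by decide +kernel) (by decide +kernel)
  · exact S_pos_of 33 C33 L33 (by decide +kernel) (by decide +kernel) (by decide +kernel) (by decide +kernel)
  · exact S_pos_of 35 C35 L35 (by decide +kernel) (by decide +kernel) (by decide +kernel) (by decide +kernel)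

lemma cnt_T12 : 1 ≤ cnt (T 12) :=
  cnt_pos (tiling_of_codes 12 L12 (by decide +kernel) (by decide +kernel) (by decide +kernel))

/-! ### the ring between `T M` and `T (M + 36)` -/

noncomputable def Q (M : ℕ) : Finset Pt :=
  ((T 12).image (tr ((M:ℤ)+24, 0, 0))) ∪ ((box 0 0 (M+12) 12).image (tr ((M:ℤ)+23, 12, 0)))

lemma mem_Q {M : ℕ} {p : Pt} : p ∈ Q M ↔
    p.1 + p.2.1 + p.2.2 = (M:ℤ) + 35 ∧ 12 ≤ p.1 ∧ 0 ≤ p.2.1 ∧ 0 ≤ p.2.2 ∧ p.2.2 < 12 := by
  unfold Q
  rw [Finset.mem_union, mem_image_tr, mem_image_tr, mem_T, mem_box]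
  simp only
  push_cast
  constructor
  · rintro (h | h) <;> omega
  · intro h
    by_cases hc : (M:ℤ) + 24 ≤ p.1
    · left; omega
    · right; omega

lemma cnt_Q (M w : ℕ) (hw : 6 * w ≤ M + 12) (hw' : M + 12 - 6 * w ≠ 1) : 4 ^ w ≤ cnt (Q M) := by
  have h1 : cnt ((T 12).image (tr ((M:ℤ)+24, 0, 0))) * cnt ((box 0 0 (M+12) 12).image (tr ((M:ℤ)+23, 12, 0)))
      ≤ cnt (Q M) := by
    apply cnt_union
    rw [Finset.disjoint_left]
    intro p hp hp'
    rw [mem_image_tr, mem_T] at hp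
    rw [mem_image_tr, mem_box] at hp'
    simp only at hp hp'
    omega
  have h2 : 1 ≤ cnt ((T 12).image (tr ((M:ℤ)+24, 0, 0))) :=
    cnt_T12.trans (cnt_image (tr_inj _) (adj_tr _))
  have h3 : cnt (box 0 0 (M+12) 12) ≤ cnt ((box 0 0 (M+12) 12).image (tr ((M:ℤ)+23, 12, 0))) :=
    cnt_image (tr_inj _) (adj_tr _)
  have h4 := cnt_box_w 0 0 (6 * w) (M + 12 - 6 * w) 12
  have e : 6 * w + (M + 12 - 6 * w) = M + 12 := by omega
  rw [e] at h4
  have h5 := cnt6w w 0 0
  have h6 := good_w_12 (M + 12 - 6 * w) hw' (0 + ((6 * w : ℕ):ℤ)) 0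
  calc 4 ^ w = 1 * (4 ^ w * 1) := by ring
    _ ≤ cnt ((T 12).image (tr ((M:ℤ)+24, 0, 0))) * cnt ((box 0 0 (M+12) 12).image (tr ((M:ℤ)+23, 12, 0))) :=
        Nat.mul_le_mul h2 (((Nat.mul_le_mul h5 h6).trans h4).trans h3)
    _ ≤ _ := h1

lemma T_decomp (M : ℕ) : T (M + 36) =
    ((Q M ∪ (Q M).image rot) ∪ ((Q M).image rot).image rot) ∪ (T M).image (tr (12, 12, 12)) := by
  ext p
  simp only [Finset.mem_union, mem_image_rot, mem_image_tr, mem_Q, mem_T]
  push_cast
  constructor
  · intro h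
    by_cases h1 : p.2.2 < 12 ∧ 12 ≤ p.1
    · left; left; left; omega
    by_cases h2 : p.1 < 12 ∧ 12 ≤ p.2.1
    · left; right; omega
    by_cases h3 : p.2.1 < 12 ∧ 12 ≤ p.2.2
    · left; left; right; omega
    right; omega
  · rintro (((h | h) | h) | h) <;> omega

lemma S_step (M : ℕ) : cnt (Q M) * S M ≤ S (M + 36) := by
  have hd1 : Disjoint (Q M) ((Q M).image rot) := by
    rw [Finset.disjoint_left]; intro p hp hp'
    rw [mem_image_rot, mem_Q] at hp'; rw [mem_Q] at hp; simp only at hp'; omega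
  have hd2 : Disjoint (Q M ∪ (Q M).image rot) (((Q M).image rot).image rot) := by
    rw [Finset.disjoint_left]; intro p hp hp'
    rw [Finset.mem_union, mem_image_rot, mem_Q, mem_Q] at hp
    rw [mem_image_rot, mem_image_rot, mem_Q] at hp'; simp only at hp hp'; omega
  have hd3 : Disjoint ((Q M ∪ (Q M).image rot) ∪ ((Q M).image rot).image rot)
      ((T M).image (tr (12, 12, 12))) := by
    rw [Finset.disjoint_left]; intro p hp hp'
    rw [Finset.mem_union, Finset.mem_union, mem_image_rot, mem_image_rot, mem_image_rot,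
      mem_Q, mem_Q, mem_Q] at hp
    rw [mem_image_tr, mem_T] at hp'; simp only at hp hp'; omega
  have hr := fun (A : Finset Pt) (P : Finset (Finset Pt)) (h : IsTiling A P) =>
    IsTiling.image rot_inj (fun p q h => adj_rot.2 h) h
  have ht := fun (A : Finset Pt) (P : Finset (Finset Pt)) (h : IsTiling A P) =>
    IsTiling.image (tr_inj (12, 12, 12)) (adj_tr (12, 12, 12)) h
  unfold cnt S
  rw [← Set.ncard_prod]
  apply Set.ncard_le_ncard_of_injOn
    (fun p : Finset (Finset Pt) × Finset (Finset Pt) =>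
      ((p.1 ∪ p.1.image (Finset.image rot)) ∪ (p.1.image (Finset.image rot)).image (Finset.image rot))
        ∪ p.2.image (Finset.image (tr (12, 12, 12)))) _ _ (finite_sym _)
  · rintro ⟨P, R⟩ ⟨hP, hR, hRs⟩
    simp only
    refine ⟨?_, ?_⟩
    · rw [T_decomp]
      exact IsTiling.union hd3 (IsTiling.union hd2 (IsTiling.union hd1 hP (hr _ _ hP))
        (hr _ _ (hr _ _ hP))) (ht _ _ hR)
    · intro t h
      simp only [Finset.mem_union, Finset.mem_image] at h ⊢
      rcases h with ((h | ⟨s, hs, rfl⟩) | ⟨s, ⟨u, hu, rfl⟩, rfl⟩) | ⟨s, hs, rfl⟩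
      · left; left; right; exact ⟨t, h, rfl⟩
      · left; right; exact ⟨_, ⟨s, hs, rfl⟩, rfl⟩
      · left; left; left
        rw [Finset.image_image, Finset.image_image]
        have e : Finset.image ((rot ∘ rot) ∘ rot) u = u := by
          have h3 : (rot ∘ rot) ∘ rot = id := by funext p; rfl
          rw [h3, Finset.image_id]
        rw [e]; exact hu
      · right
        refine ⟨s.image rot, hRs s hs, ?_⟩
        rw [Finset.image_image, Finset.image_image]
        rfl
  · rintro ⟨P, R⟩ ⟨hP, hR, hRs⟩ ⟨P', R'⟩ ⟨hP', hR', hRs'⟩ h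
    simp only at h
    have a1 := IsTiling.union hd1 hP (hr _ _ hP)
    have a2 := IsTiling.union hd2 a1 (hr _ _ (hr _ _ hP))
    have b1 := IsTiling.union hd1 hP' (hr _ _ hP')
    have b2 := IsTiling.union hd2 b1 (hr _ _ (hr _ _ hP'))
    have e1 := IsTiling.recover' hd3 a2 (ht _ _ hR)
    have f1 := IsTiling.recover' hd3 b2 (ht _ _ hR')
    rw [h, f1] at e1
    have e2 := IsTiling.recover hd3 a2 (ht _ _ hR)
    have f2 := IsTiling.recover hd3 b2 (ht _ _ hR')
    rw [h, f2] at e2
    have e3 := IsTiling.recover hd2 a1 (hr _ _ (hr _ _ hP))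
    have f3 := IsTiling.recover hd2 b1 (hr _ _ (hr _ _ hP'))
    rw [← e2, f3] at e3
    have e4 := IsTiling.recover hd1 hP (hr _ _ hP)
    have f4 := IsTiling.recover hd1 hP' (hr _ _ hP')
    rw [← e3, f4] at e4
    rw [Prod.mk.injEq]
    exact ⟨e4.symm, (Finset.image_injective (Finset.image_injective (tr_inj _)) e1).symm⟩

lemma S_lower (r : ℕ) (hr : r = 0 ∨ r = 2 ∨ r = 9 ∨ r = 11 ∨ r = 24 ∨ r = 26 ∨ r = 33 ∨ r = 35) (q : ℕ) :
    2 ^ (2 * q * (3 * q - 2)) ≤ S (36 * q + r) := by
  induction q with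
  | zero => simpa using S_base r hr
  | succ q ih =>
    have h1 := S_step (36 * q + r)
    have h2 := cnt_Q (36 * q + r) (6 * q + 1) (by omega) (by omega)
    have e : 2 * (q + 1) * (3 * (q + 1) - 2) = 2 * (6 * q + 1) + 2 * q * (3 * q - 2) := by
      rcases q with _ | q
      · simp
      · have : 3 * (q + 1 + 1) - 2 = 3 * q + 4 := by omega
        rw [this]
        have : 3 * (q + 1) - 2 = 3 * q + 1 := by omega
        rw [this]; ring
    rw [e, pow_add, pow_mul]
    calc (2 ^ 2) ^ (6 * q + 1) * 2 ^ (2 * q * (3 * q - 2)) ≤ cnt (Q (36 * q + r)) * S (36 * q + r) :=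
          Nat.mul_le_mul (by simpa using h2) ih
      _ ≤ S (36 * q + r + 36) := h1
      _ = S (36 * (q + 1) + r) := by ring_nf

/-- **Main result.**  Let `N` be one of the sizes `0, 2, 9, 11 (mod 12)` (the sizes for which the
triangular array `T N` has a tiling at all, by Conway and Lagarias).  If `N` is `12, 14, 21` or `23`
modulo `36`, there is no rotationally symmetric tiling of `T N`; in all other cases there are at
least `2 ^ (2 q (3 q - 2))` of them, where `q = N / 36` (rounded down). -/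
theorem result (N : ℕ) (hN : N % 12 = 0 ∨ N % 12 = 2 ∨ N % 12 = 9 ∨ N % 12 = 11) :
    ((N % 36 = 12 ∨ N % 36 = 14 ∨ N % 36 = 21 ∨ N % 36 = 23) → S N = 0) ∧
    (¬ (N % 36 = 12 ∨ N % 36 = 14 ∨ N % 36 = 21 ∨ N % 36 = 23) →
      2 ^ (2 * (N / 36) * (3 * (N / 36) - 2)) ≤ S N) := by
  have e : N = 36 * (N / 36) + N % 36 := (Nat.div_add_mod N 36).symm
  refine ⟨fun h => ?_, fun h => ?_⟩
  · rw [e]; exact S_eq_zero (N / 36) (N % 36) h
  · have h2 := S_lower (N % 36) (by omega) (N / 36)
    rwa [← e] at h2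

end Pool.Agent.Results.MP_ad0b59_co.Dichotomy
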