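import Mathlib

/-!
# MP_ad0b59_co: the number of rotationally symmetric tilings of `T_N` is even for `N ≥ 3`

For `N ≥ 3` no tiling of `T_N` is mapped to itself by one of the three reflections of `T_N`.  Hence the number `t N` of all tilings and the
number `S N` of the rotationally symmetric tilings are even, and `t N ≡ S N` modulo `6`.

Proof.  Let a tiling be invariant under the reflection which fixes the corner `a`.  The tile of `a` consists of the first two
rows.  The middle point of the third row is in a tile which is invariant under the reflection, so this tile contains the two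
middle points of the fourth row.  Then the end point of the third row has only one neighbour which is free, so it is in no tile.
-/

set_option autoImplicit false

namespace Pool.Agent.Results.MP_ad0b59_co.Parity

/-- Points of the triangular lattice in barycentric coordinates `(i, j, k)`; within one array
`T N` the sum `i + j + k = N - 1` is constant. -/
abbrev Pt := ℤ × ℤ × ℤ

/-- `p` and `q` (with equal coordinate sums) are at distance one in the triangular lattice:
the squared distance is half of the sum of the squared coordinate differences. -/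
def Adj (p q : Pt) : Prop :=
  (p.1 - q.1)^2 + (p.2.1 - q.2.1)^2 + (p.2.2 - q.2.2)^2 = 2

/-- The rotation by 120 degrees about the centre of `T N`. -/
def rot (p : Pt) : Pt := (p.2.1, p.2.2, p.1)

/-- The reflection of `T N` which fixes the corner `(N - 1, 0, 0)`. -/
def mir (p : Pt) : Pt := (p.1, p.2.2, p.2.1)

/-- The triangular array `T_N`: points with nonnegative coordinates with sum `N - 1`. -/
noncomputable def T (N : ℕ) : Finset Pt :=
  (Finset.Icc (0:ℤ) N ×ˢ Finset.Icc (0:ℤ) N ×ˢ Finset.Icc (0:ℤ) N).filter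
    (fun p => p.1 + p.2.1 + p.2.2 = (N:ℤ) - 1)

/-- A tile: three mutually adjacent points. -/
def IsTile (t : Finset Pt) : Prop :=
  t.card = 3 ∧ ∀ p ∈ t, ∀ q ∈ t, p ≠ q → Adj p q

/-- `P` is a partition of the set of points `A` into tiles. -/
def IsTiling (A : Finset Pt) (P : Finset (Finset Pt)) : Prop :=
  (∀ t ∈ P, IsTile t ∧ t ⊆ A) ∧ ∀ p ∈ A, ∃! t, t ∈ P ∧ p ∈ t

/-- The rotation maps every tile of `P` to a tile of `P`. -/
def RotSymm (P : Finset (Finset Pt)) : Prop := ∀ t ∈ P, t.image rot ∈ P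

/-- The number of all tilings of `T_N`. -/
noncomputable def t (N : ℕ) : ℕ := Set.ncard {P | IsTiling (T N) P}

/-- The number of rotationally symmetric tilings of `T_N`. -/
noncomputable def S (N : ℕ) : ℕ := Set.ncard {P | IsTiling (T N) P ∧ RotSymm P}

/-! ### Basic facts -/

theorem mem_T {N : ℕ} {p : Pt} :
    p ∈ T N ↔ 0 ≤ p.1 ∧ 0 ≤ p.2.1 ∧ 0 ≤ p.2.2 ∧ p.1 + p.2.1 + p.2.2 = (N:ℤ) - 1 := by
  unfold T
  simp only [Finset.mem_filter, Finset.mem_product, Finset.mem_Icc]
  constructor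
  · rintro ⟨⟨⟨a, b⟩, ⟨c, d⟩, e, f⟩, g⟩
    exact ⟨a, c, e, g⟩
  · rintro ⟨a, b, c, d⟩
    refine ⟨⟨⟨a, by omega⟩, ⟨b, by omega⟩, c, by omega⟩, d⟩

/-- The six neighbours of a point. -/
theorem nbr {a b c x y z : ℤ} (h : Adj (a, b, c) (x, y, z)) (hs : a + b + c = x + y + z) :
    (x = a + 1 ∧ y = b - 1 ∧ z = c) ∨ (x = a + 1 ∧ y = b ∧ z = c - 1) ∨
    (x = a ∧ y = b + 1 ∧ z = c - 1) ∨ (x = a ∧ y = b - 1 ∧ z = c + 1) ∨
    (x = a - 1 ∧ y = b + 1 ∧ z = c) ∨ (x = a - 1 ∧ y = b ∧ z = c + 1) := by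
  simp only [Adj] at h
  obtain ⟨u, hu⟩ : ∃ u, u = x - a := ⟨_, rfl⟩
  obtain ⟨v, hv⟩ : ∃ v, v = y - b := ⟨_, rfl⟩
  have hx : x = a + u := by omega
  have hy : y = b + v := by omega
  have hz : z = c - u - v := by omega
  subst hx hy hz
  have h1 : u ^ 2 + v ^ 2 + (u + v) ^ 2 = 2 := by nlinarith
  have hu1 : u ≤ 1 := by
    by_contra hc
    push Not at hc
    nlinarith [sq_nonneg (u + 2 * v)]
  have hu2 : -1 ≤ u := by
    by_contra hc
    push Not at hc
    nlinarith [sq_nonneg (u + 2 * v)]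
  have hv1 : v ≤ 1 := by
    by_contra hc
    push Not at hc
    nlinarith [sq_nonneg (2 * u + v)]
  have hv2 : -1 ≤ v := by
    by_contra hc
    push Not at hc
    nlinarith [sq_nonneg (2 * u + v)]
  have hu3 : u = -1 ∨ u = 0 ∨ u = 1 := by omega
  have hv3 : v = -1 ∨ v = 0 ∨ v = 1 := by omega
  rcases hu3 with rfl | rfl | rfl <;> rcases hv3 with rfl | rfl | rfl <;>
    first
    | (exfalso; norm_num at h1; done)
    | omega

theorem uniq {N : ℕ} {P : Finset (Finset Pt)} (hP : IsTiling (T N) P) {t₁ t₂ : Finset Pt}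
    (h1 : t₁ ∈ P) (h2 : t₂ ∈ P) {p : Pt} (hp : p ∈ t₁) (hp' : p ∈ t₂) : t₁ = t₂ := by
  have hpT := (hP.1 t₁ h1).2 hp
  obtain ⟨t, -, ht⟩ := hP.2 p hpT
  rw [ht t₁ ⟨h1, hp⟩, ht t₂ ⟨h2, hp'⟩]

/-- **No tiling is symmetric with respect to the reflection.** -/
theorem no_mirror {N : ℕ} (hN : 3 ≤ N) {P : Finset (Finset Pt)} (hP : IsTiling (T N) P)
    (hm : ∀ t ∈ P, t.image mir ∈ P) : False := by
  obtain ⟨n, hn⟩ : ∃ n : ℤ, n = N := ⟨_, rfl⟩
  have hn3 : 3 ≤ n := by omega
  -- the tile of the corner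
  have ha : ((n - 1, 0, 0) : Pt) ∈ T N := mem_T.2 ⟨by simp only; omega, le_refl _, le_refl _, by simp only; omega⟩
  obtain ⟨t₁, ⟨h1, ha1⟩, -⟩ := hP.2 _ ha
  have hsub1 : t₁ ⊆ {(n - 1, 0, 0), (n - 2, 1, 0), (n - 2, 0, 1)} := by
    rintro ⟨x, y, z⟩ hq
    have hqT := mem_T.1 ((hP.1 t₁ h1).2 hq)
    simp only at hqT
    by_cases he : ((n - 1, 0, 0) : Pt) = (x, y, z)
    · rw [← he]
      simp
    · have hadj := (hP.1 t₁ h1).1.2 _ ha1 _ hq he
      have h3 := nbr hadj (by omega)
      simp only [Finset.mem_insert, Finset.mem_singleton, Prod.mk.injEq]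
      omega
  have heq1 : t₁ = {(n - 1, 0, 0), (n - 2, 1, 0), (n - 2, 0, 1)} :=
    Finset.eq_of_subset_of_card_le hsub1 (by
      rw [(hP.1 t₁ h1).1.1]
      exact Finset.card_le_three)
  -- the tile of the middle point of the third row
  have hc : ((n - 3, 1, 1) : Pt) ∈ T N :=
    mem_T.2 ⟨by simp only; omega, by norm_num, by norm_num, by simp only; omega⟩
  obtain ⟨t₂, ⟨h2, hc2⟩, -⟩ := hP.2 _ hc
  have hm2 : t₂.image mir = t₂ :=
    uniq hP (hm t₂ h2) h2 (Finset.mem_image.2 ⟨_, hc2, rfl⟩) hc2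
  have h12 : ∀ q : Pt, q ∈ t₁ → q ∈ t₂ → False := by
    intro q hq1 hq2
    have h3 : t₁ = t₂ := uniq hP h1 h2 hq1 hq2
    rw [← h3, heq1] at hc2
    simp only [Finset.mem_insert, Finset.mem_singleton, Prod.mk.injEq] at hc2
    omega
  have hb1 : ((n - 2, 1, 0) : Pt) ∈ t₁ := by rw [heq1]; simp
  have hb2 : ((n - 2, 0, 1) : Pt) ∈ t₁ := by rw [heq1]; simp
  have hsub2 : t₂ ⊆ {(n - 3, 1, 1), (n - 4, 2, 1), (n - 4, 1, 2)} := by
    rintro ⟨x, y, z⟩ hq
    have hqT := mem_T.1 ((hP.1 t₂ h2).2 hq)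
    simp only at hqT
    by_cases he : ((n - 3, 1, 1) : Pt) = (x, y, z)
    · rw [← he]
      simp
    · have hadj := (hP.1 t₂ h2).1.2 _ hc2 _ hq he
      have hq' : mir (x, y, z) ∈ t₂ := by
        rw [← hm2]
        exact Finset.mem_image.2 ⟨_, hq, rfl⟩
      simp only [mir] at hq'
      rcases nbr hadj (by omega) with ⟨e1, e2, e3⟩ | ⟨e1, e2, e3⟩ | ⟨e1, e2, e3⟩ | ⟨e1, e2, e3⟩ |
        ⟨e1, e2, e3⟩ | ⟨e1, e2, e3⟩
      · exfalso
        have e : ((n - 2, 0, 1) : Pt) = (x, y, z) := by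
          simp only [Prod.mk.injEq]; omega
        exact h12 _ hb2 (e ▸ hq)
      · exfalso
        have e : ((n - 2, 1, 0) : Pt) = (x, y, z) := by
          simp only [Prod.mk.injEq]; omega
        exact h12 _ hb1 (e ▸ hq)
      · exfalso
        have hne : ((x, y, z) : Pt) ≠ (x, z, y) := by
          intro h
          simp only [Prod.mk.injEq] at h
          omega
        have h5 := (hP.1 t₂ h2).1.2 _ hq _ hq' hne
        have h6 := nbr h5 (by omega)
        omega
      · exfalso
        have hne : ((x, y, z) : Pt) ≠ (x, z, y) := by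
          intro h
          simp only [Prod.mk.injEq] at h
          omega
        have h5 := (hP.1 t₂ h2).1.2 _ hq _ hq' hne
        have h6 := nbr h5 (by omega)
        omega
      · simp only [Finset.mem_insert, Finset.mem_singleton, Prod.mk.injEq]
        omega
      · simp only [Finset.mem_insert, Finset.mem_singleton, Prod.mk.injEq]
        omega
  have heq2 : t₂ = {(n - 3, 1, 1), (n - 4, 2, 1), (n - 4, 1, 2)} :=
    Finset.eq_of_subset_of_card_le hsub2 (by
      rw [(hP.1 t₂ h2).1.1]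
      exact Finset.card_le_three)
  have hd2 : ((n - 4, 2, 1) : Pt) ∈ t₂ := by rw [heq2]; simp
  -- the end point of the third row
  have he : ((n - 3, 2, 0) : Pt) ∈ T N :=
    mem_T.2 ⟨by simp only; omega, by norm_num, by norm_num, by simp only; omega⟩
  obtain ⟨t₃, ⟨h3, he3⟩, -⟩ := hP.2 _ he
  have h13 : ∀ q : Pt, q ∈ t₁ → q ∈ t₃ → False := by
    intro q hq1 hq2
    have h4 : t₁ = t₃ := uniq hP h1 h3 hq1 hq2
    rw [← h4, heq1] at he3
    simp only [Finset.mem_insert, Finset.mem_singleton, Prod.mk.injEq] at he3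
    omega
  have h23 : ∀ q : Pt, q ∈ t₂ → q ∈ t₃ → False := by
    intro q hq1 hq2
    have h4 : t₂ = t₃ := uniq hP h2 h3 hq1 hq2
    rw [← h4, heq2] at he3
    simp only [Finset.mem_insert, Finset.mem_singleton, Prod.mk.injEq] at he3
    omega
  have hsub3 : t₃ ⊆ {(n - 3, 2, 0), (n - 4, 3, 0)} := by
    rintro ⟨x, y, z⟩ hq
    have hqT := mem_T.1 ((hP.1 t₃ h3).2 hq)
    simp only at hqT
    by_cases he : ((n - 3, 2, 0) : Pt) = (x, y, z)
    · rw [← he]
      simp
    · have hadj := (hP.1 t₃ h3).1.2 _ he3 _ hq he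
      rcases nbr hadj (by omega) with ⟨e1, e2, e3⟩ | ⟨e1, e2, e3⟩ | ⟨e1, e2, e3⟩ | ⟨e1, e2, e3⟩ |
        ⟨e1, e2, e3⟩ | ⟨e1, e2, e3⟩
      · exfalso
        have e : ((n - 2, 1, 0) : Pt) = (x, y, z) := by
          simp only [Prod.mk.injEq]; omega
        exact h13 _ hb1 (e ▸ hq)
      · omega
      · omega
      · exfalso
        have e : ((n - 3, 1, 1) : Pt) = (x, y, z) := by
          simp only [Prod.mk.injEq]; omega
        exact h23 _ hc2 (e ▸ hq)
      · simp only [Finset.mem_insert, Finset.mem_singleton, Prod.mk.injEq]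
        omega
      · exfalso
        have e : ((n - 4, 2, 1) : Pt) = (x, y, z) := by
          simp only [Prod.mk.injEq]; omega
        exact h23 _ hd2 (e ▸ hq)
  have hcard := Finset.card_le_card hsub3
  rw [(hP.1 t₃ h3).1.1] at hcard
  have h4 : ({(n - 3, 2, 0), (n - 4, 3, 0)} : Finset Pt).card ≤ 2 := Finset.card_le_two
  omega

/-! ### Symmetries act on the tilings -/

/-- The image of a tiling. -/
def img (f : Pt → Pt) (P : Finset (Finset Pt)) : Finset (Finset Pt) := P.image (Finset.image f)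

theorem img_tiling {N : ℕ} {f g : Pt → Pt} (hfg : ∀ p, g (f p) = p) (hgf : ∀ p, f (g p) = p)
    (hadj : ∀ p q, Adj p q → Adj (f p) (f q)) (hf : ∀ p ∈ T N, f p ∈ T N)
    (hg : ∀ p ∈ T N, g p ∈ T N) {P : Finset (Finset Pt)} (hP : IsTiling (T N) P) :
    IsTiling (T N) (img f P) := by
  have hinj : Function.Injective f := fun a b h => by rw [← hfg a, ← hfg b, h]
  refine ⟨?_, ?_⟩
  · intro t ht
    obtain ⟨s, hs, rfl⟩ := Finset.mem_image.1 ht
    refine ⟨⟨?_, ?_⟩, ?_⟩
    · rw [Finset.card_image_of_injective _ hinj]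
      exact (hP.1 s hs).1.1
    · intro p hp q hq hpq
      obtain ⟨p', hp', rfl⟩ := Finset.mem_image.1 hp
      obtain ⟨q', hq', rfl⟩ := Finset.mem_image.1 hq
      exact hadj _ _ ((hP.1 s hs).1.2 p' hp' q' hq' fun h => hpq (by rw [h]))
    · intro p hp
      obtain ⟨p', hp', rfl⟩ := Finset.mem_image.1 hp
      exact hf _ ((hP.1 s hs).2 hp')
  · intro p hp
    obtain ⟨s, ⟨hs, hps⟩, hu⟩ := hP.2 (g p) (hg p hp)
    refine ⟨s.image f, ⟨Finset.mem_image_of_mem _ hs, Finset.mem_image.2 ⟨_, hps, hgf p⟩⟩, ?_⟩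
    rintro t ⟨ht, hpt⟩
    obtain ⟨s', hs', rfl⟩ := Finset.mem_image.1 ht
    obtain ⟨p', hp', rfl⟩ := Finset.mem_image.1 hpt
    rw [hu s' ⟨hs', by rw [hfg]; exact hp'⟩]

theorem img_img (f g : Pt → Pt) (P : Finset (Finset Pt)) : img g (img f P) = img (g ∘ f) P := by
  unfold img
  rw [Finset.image_image]
  congr 1
  funext s
  simp only [Function.comp, Finset.image_image]

theorem img_id (P : Finset (Finset Pt)) : img id P = P := by
  unfold img
  have : (Finset.image (id : Pt → Pt)) = id := by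
    funext s
    exact Finset.image_id
  rw [this, Finset.image_id]

theorem mir_tiling {N : ℕ} {P : Finset (Finset Pt)} (hP : IsTiling (T N) P) :
    IsTiling (T N) (img mir P) := by
  have h : ∀ p ∈ T N, mir p ∈ T N := fun p hp => by
    rw [mem_T] at hp ⊢
    simp only [mir]
    omega
  refine img_tiling (g := mir) (fun _ => rfl) (fun _ => rfl) ?_ h h hP
  intro p q hpq
  simp only [Adj, mir] at hpq ⊢
  linarith

theorem rot_tiling {N : ℕ} {P : Finset (Finset Pt)} (hP : IsTiling (T N) P) :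
    IsTiling (T N) (img rot P) := by
  refine img_tiling (g := rot ∘ rot) (fun _ => rfl) (fun _ => rfl) ?_ ?_ ?_ hP
  · intro p q hpq
    simp only [Adj, rot] at hpq ⊢
    linarith
  · intro p hp
    rw [mem_T] at hp ⊢
    simp only [rot]
    omega
  · intro p hp
    rw [mem_T] at hp ⊢
    simp only [rot, Function.comp]
    omega

theorem rotSymm_iff {P : Finset (Finset Pt)} : RotSymm P ↔ img rot P = P := by
  constructor
  · intro h
    refine Finset.eq_of_subset_of_card_le ?_ ?_
    · intro s hs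
      obtain ⟨s', hs', rfl⟩ := Finset.mem_image.1 hs
      exact h s' hs'
    · unfold img
      rw [Finset.card_image_of_injective]
      refine Finset.image_injective (fun a b h => ?_)
      have : rot (rot (rot a)) = rot (rot (rot b)) := by rw [h]
      exact this
  · intro h s hs
    rw [← h]
    exact Finset.mem_image_of_mem _ hs

theorem rotSymm_mir {P : Finset (Finset Pt)} (h : RotSymm P) : RotSymm (img mir P) := by
  rw [rotSymm_iff] at h ⊢
  have h1 : img (rot ∘ rot) P = P := by rw [← img_img, h, h]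
  rw [img_img]
  have h2 : rot ∘ mir = mir ∘ (rot ∘ rot) := rfl
  rw [h2, ← img_img, h1]

theorem finite_tilings (N : ℕ) : {P | IsTiling (T N) P}.Finite := by
  refine (Finset.finite_toSet (T N).powerset.powerset).subset fun P hP => ?_
  rw [Finset.mem_coe, Finset.mem_powerset]
  intro s hs
  rw [Finset.mem_powerset]
  exact (hP.1 s hs).2

/-- An involution without fixed points on a finite set. -/
theorem even_of_invol {α : Type} (A : Set α) (hA : A.Finite) (f : α → α) (hf : ∀ a ∈ A, f a ∈ A)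
    (h2 : ∀ a ∈ A, f (f a) = a) (h0 : ∀ a ∈ A, f a ≠ a) : Even A.ncard := by
  classical
  have : Fintype A := hA.fintype
  let F : Function.End A := fun a => ⟨f a, hf a a.2⟩
  have hF : F ^ 2 ^ 1 = 1 := by
    funext a
    apply Subtype.ext
    exact h2 a a.2
  have h := Equiv.Perm.card_fixedPoints_modEq hF
  have h1 : IsEmpty F.fixedPoints := ⟨fun a => h0 a.1 a.1.2 (congrArg Subtype.val a.2)⟩
  rw [Fintype.card_eq_zero (α := F.fixedPoints)] at h
  rw [Set.ncard_eq_toFinset_card', Set.toFinset_card, Nat.even_iff]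
  exact h

/-- A map of order three. -/
theorem mod_three {α : Type} (A : Set α) (hA : A.Finite) (f : α → α) (hf : ∀ a ∈ A, f a ∈ A)
    (h3 : ∀ a ∈ A, f (f (f a)) = a) : A.ncard ≡ {a | a ∈ A ∧ f a = a}.ncard [MOD 3] := by
  classical
  have : Fintype A := hA.fintype
  let F : Function.End A := fun a => ⟨f a, hf a a.2⟩
  have hF : F ^ 3 ^ 1 = 1 := by
    funext a
    apply Subtype.ext
    exact h3 a a.2
  have : Fact (Nat.Prime 3) := ⟨by norm_num⟩
  have h := Equiv.Perm.card_fixedPoints_modEq hF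
  have h1 : Fintype.card F.fixedPoints = {a | a ∈ A ∧ f a = a}.ncard := by
    rw [← Nat.card_eq_fintype_card, ← Nat.card_coe_set_eq]
    refine Nat.card_congr ⟨fun a => ⟨a.1, a.1.2, congrArg Subtype.val a.2⟩,
      fun a => ⟨⟨a.1, a.2.1⟩, Subtype.ext a.2.2⟩, fun _ => rfl, fun _ => rfl⟩
  rw [h1] at h
  rw [Set.ncard_eq_toFinset_card' A, Set.toFinset_card]
  exact h

/-- **Theorem.** Let `N ≥ 3`.  No tiling of `T_N` is mapped to itself by one of the three reflections `mir`, `rot ∘ mir`,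
`rot ∘ rot ∘ mir` of `T_N`.  The number `S N` of the rotationally symmetric tilings and the number `t N` of all tilings are
even, and `t N ≡ S N` modulo `6`. -/
theorem result (N : ℕ) (hN : 3 ≤ N) :
    (∀ P, IsTiling (T N) P → P.image (Finset.image mir) ≠ P ∧
      P.image (Finset.image (rot ∘ mir)) ≠ P ∧ P.image (Finset.image (rot ∘ rot ∘ mir)) ≠ P) ∧
    Even (S N) ∧ Even (t N) ∧ t N ≡ S N [MOD 6] := by
  have h0 : ∀ P, IsTiling (T N) P → img mir P ≠ P := by
    intro P hP h
    refine no_mirror hN hP fun s hs => ?_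
    have h1 : s.image mir ∈ img mir P := Finset.mem_image_of_mem _ hs
    rwa [h] at h1
  have hinv : ∀ P, img mir (img mir P) = P := by
    intro P
    rw [img_img]
    exact img_id P
  have hS : Even (S N) :=
    even_of_invol _ ((finite_tilings N).subset fun P hP => hP.1) (img mir)
      (fun P hP => ⟨mir_tiling hP.1, rotSymm_mir hP.2⟩) (fun P _ => hinv P)
      (fun P hP => h0 P hP.1)
  have ht : Even (t N) :=
    even_of_invol _ (finite_tilings N) (img mir) (fun P hP => mir_tiling hP) (fun P _ => hinv P)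
      (fun P hP => h0 P hP)
  have h3 : t N ≡ S N [MOD 3] := by
    have h := mod_three {P | IsTiling (T N) P} (finite_tilings N) (img rot)
      (fun P hP => rot_tiling hP) (fun P _ => by
        rw [img_img, img_img]
        exact img_id P)
    have h4 : {P | P ∈ {P | IsTiling (T N) P} ∧ img rot P = P} =
        {P | IsTiling (T N) P ∧ RotSymm P} := by
      ext P
      simp only [Set.mem_ofPred_eq, rotSymm_iff]
    rw [h4] at h
    exact h
  refine ⟨fun P hP => ⟨h0 P hP, fun h => ?_, fun h => ?_⟩, hS, ht, ?_⟩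
  · refine h0 (img rot P) (rot_tiling hP) ?_
    have h5 : img (rot ∘ mir) P = P := h
    have h6 : mir ∘ rot = rot ∘ (rot ∘ mir) := rfl
    rw [img_img, h6, ← img_img, h5]
  · refine h0 (img rot (img rot P)) (rot_tiling (rot_tiling hP)) ?_
    have h5 : img (rot ∘ rot ∘ mir) P = P := h
    have h6 : (mir ∘ rot) ∘ rot = (rot ∘ rot) ∘ (rot ∘ rot ∘ mir) := rfl
    rw [img_img, img_img, h6, ← img_img (rot ∘ rot ∘ mir) (rot ∘ rot), h5, ← img_img rot rot]
  have h2 : t N ≡ S N [MOD 2] := by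
    rw [Nat.even_iff] at hS ht
    unfold Nat.ModEq
    rw [hS, ht]
  exact (Nat.modEq_and_modEq_iff_modEq_mul (by norm_num : Nat.Coprime 2 3)).1 ⟨h2, h3⟩

end Pool.Agent.Results.MP_ad0b59_co.Parity
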